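import Pool.Agent.J6H63.Cop.Stm

/-!
# Copolymer at a selective interface: good words (MODULE GOOD)
-/

set_option autoImplicit false

open MeasureTheory ProbabilityTheory Filter Topology
open Cop764
open Pool.Agent.J6H63.Cop

namespace Pool.Agent.J6H22.Cop

section gen

variable {M : ℕ} (K : ℕ → ℝ) (t : Fin M → Finset ℕ)

lemma sum_pi : ∑ n ∈ Fintype.piFinset t, ∏ i, K (n i) = ∏ i, ∑ m ∈ t i, K m :=
  (Finset.prod_univ_sum t (fun _ m => K m)).symm

lemma sum_pi_mul (l : Fin M) (hl : ∑ m ∈ t l, K m ≠ 0) :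
    ∑ n ∈ Fintype.piFinset t, (∏ i, K (n i)) * (n l : ℝ) =
      (∏ i, ∑ m ∈ t i, K m) * ((∑ m ∈ t l, K m * (m : ℝ)) / (∑ m ∈ t l, K m)) := by
  have h1 : ∀ n : Fin M → ℕ, (∏ i, K (n i)) * (n l : ℝ)
      = ∏ i, (K (n i) * if i = l then (n i : ℝ) else 1) := by
    intro n
    rw [Finset.prod_mul_distrib, Finset.prod_ite_eq' Finset.univ l (fun i => (n i : ℝ))]
    simp
  simp_rw [h1]
  rw [← Finset.prod_univ_sum t (fun i m => K m * if i = l then (m:ℝ) else 1)]
  rw [← Finset.mul_prod_erase Finset.univ _ (Finset.mem_univ l),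
    ← Finset.mul_prod_erase Finset.univ (fun i => ∑ m ∈ t i, K m) (Finset.mem_univ l)]
  have h2 : ∏ x ∈ Finset.univ.erase l, ∑ m ∈ t x, K m * (if x = l then (m:ℝ) else 1)
      = ∏ x ∈ Finset.univ.erase l, ∑ m ∈ t x, K m := by
    apply Finset.prod_congr rfl
    intro x hx
    have hx' : x ≠ l := (Finset.mem_erase.mp hx).1
    simp [hx']
  rw [h2]
  simp only [if_true]
  field_simp

end gen

/-- partial sums of the gap law are at most one -/
lemma K_nonneg (B : Base) (n : ℕ) : 0 ≤ B.K n := ENNReal.toReal_nonneg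

lemma K_hasSum (B : Base) : HasSum B.K 1 := by
  have h := B.κ.tsum_coe
  have hne : ∀ a, B.κ a ≠ ⊤ := fun a => B.κ.apply_ne_top a
  have h1 : (∑' a, B.κ a).toReal = ∑' a, (B.κ a).toReal := ENNReal.tsum_toReal_eq hne
  have h2 : HasSum (fun a => (B.κ a).toReal) (∑' a, (B.κ a).toReal) := by
    apply ENNReal.hasSum_toReal
    rw [h]; exact ENNReal.one_ne_top
  rw [← h1, h, ENNReal.toReal_one] at h2
  exact h2

lemma K_zero (B : Base) : B.K 0 = 0 := by simp [Base.K, B.κ0]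

lemma K_sum_le (B : Base) (s : Finset ℕ) : ∑ m ∈ s, B.K m ≤ 1 :=
  sum_le_hasSum s (fun i _ => K_nonneg B i) (K_hasSum B)

/-- mass of short excursions -/
lemma short_mass (B : Base) {C : ℝ}
    (hC : ∀ T : ℝ, 1 ≤ T → ∀ R : ℕ,
      ∑ m ∈ Finset.Icc 1 R, B.K m * min ((m : ℝ) / T) 1 ≤ C * T ^ (-B.α))
    {T : ℝ} (hT : 1 ≤ T) (R : ℕ) (hR : T ≤ R) :
    1 - C * T ^ (-B.α) ≤ ∑ m ∈ (Finset.Icc 1 R).filter (fun m : ℕ => (m : ℝ) ≤ T), B.K m := by
  have hT0 : 0 < T := by linarith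
  -- limit of the sums over `range (n + 1)`
  have hlim := (K_hasSum B).tendsto_sum_nat
  refine le_of_tendsto' ((hlim.comp (tendsto_add_atTop_nat (R+1))).sub_const (C * T ^ (-B.α)))
    (fun n => ?_)
  simp only [Function.comp]
  have h1 : ∑ m ∈ Finset.range (n + (R+1)), B.K m =
      ∑ m ∈ Finset.Icc 1 (n + R), B.K m := by
    rw [Finset.range_eq_Ico, Finset.sum_eq_sum_Ico_succ_bot (by omega), K_zero, zero_add]
    apply Finset.sum_congr _ (fun _ _ => rfl)
    ext m; simp only [Finset.mem_Ico, Finset.mem_Icc]; omega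
  rw [h1, ← Finset.sum_filter_add_sum_filter_not (Finset.Icc 1 (n+R)) (fun m : ℕ => (m:ℝ) ≤ T)]
  have h2 : (Finset.Icc 1 (n+R)).filter (fun m : ℕ => (m:ℝ) ≤ T)
      = (Finset.Icc 1 R).filter (fun m : ℕ => (m:ℝ) ≤ T) := by
    ext m
    simp only [Finset.mem_filter, Finset.mem_Icc]
    constructor
    · rintro ⟨⟨h3, h4⟩, h5⟩
      refine ⟨⟨h3, ?_⟩, h5⟩
      exact_mod_cast h5.trans hR
    · rintro ⟨⟨h3, h4⟩, h5⟩
      exact ⟨⟨h3, by omega⟩, h5⟩
  rw [h2]
  have h3 : ∑ m ∈ (Finset.Icc 1 (n+R)).filter (fun m : ℕ => ¬ (m:ℝ) ≤ T), B.K m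
      ≤ C * T ^ (-B.α) := by
    refine le_trans ?_ (hC T hT (n+R))
    calc ∑ m ∈ (Finset.Icc 1 (n+R)).filter (fun m : ℕ => ¬ (m:ℝ) ≤ T), B.K m
        ≤ ∑ m ∈ (Finset.Icc 1 (n+R)).filter (fun m : ℕ => ¬ (m:ℝ) ≤ T),
            B.K m * min ((m : ℝ) / T) 1 := by
          apply Finset.sum_le_sum
          intro m hm
          have hm2 := (Finset.mem_filter.mp hm).2
          push Not at hm2
          have : (1:ℝ) ≤ (m:ℝ) / T := by rw [le_div_iff₀ hT0]; linarith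
          rw [min_eq_right this, mul_one]
      _ ≤ _ := by
          apply Finset.sum_le_sum_of_subset_of_nonneg (Finset.filter_subset _ _)
          intro m _ _
          have := K_nonneg B m
          positivity
  linarith

lemma short_mean (B : Base) {C : ℝ}
    (hC : ∀ T : ℝ, 1 ≤ T → ∀ R : ℕ,
      ∑ m ∈ Finset.Icc 1 R, B.K m * min ((m : ℝ) / T) 1 ≤ C * T ^ (-B.α))
    {T : ℝ} (hT : 1 ≤ T) (R : ℕ) :
    ∑ m ∈ (Finset.Icc 1 R).filter (fun m : ℕ => (m : ℝ) ≤ T), B.K m * (m:ℝ)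
      ≤ T * (C * T ^ (-B.α)) := by
  have hT0 : 0 < T := by linarith
  calc ∑ m ∈ (Finset.Icc 1 R).filter (fun m : ℕ => (m : ℝ) ≤ T), B.K m * (m:ℝ)
      = ∑ m ∈ (Finset.Icc 1 R).filter (fun m : ℕ => (m : ℝ) ≤ T),
          T * (B.K m * min ((m : ℝ) / T) 1) := by
        apply Finset.sum_congr rfl
        intro m hm
        have hm2 := (Finset.mem_filter.mp hm).2
        have : (m:ℝ) / T ≤ 1 := by rw [div_le_one hT0]; exact hm2
        rw [min_eq_left this]
        field_simp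
    _ ≤ ∑ m ∈ Finset.Icc 1 R, T * (B.K m * min ((m : ℝ) / T) 1) := by
        apply Finset.sum_le_sum_of_subset_of_nonneg (Finset.filter_subset _ _)
        intro m _ _
        have := K_nonneg B m
        positivity
    _ = T * ∑ m ∈ Finset.Icc 1 R, B.K m * min ((m : ℝ) / T) 1 := by
        rw [Finset.mul_sum]
    _ ≤ _ := by
        apply mul_le_mul_of_nonneg_left (hC T hT R) hT0.le

lemma exp_le_one_sub {x : ℝ} (hx : 0 ≤ x) (hx2 : x ≤ 1/2) : Real.exp (-(2*x)) ≤ 1 - x := by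
  rw [Real.exp_neg]
  have h1 : 2 * x + 1 ≤ Real.exp (2*x) := Real.add_one_le_exp (2*x)
  have h2 : 0 < 2 * x + 1 := by linarith
  calc (Real.exp (2*x))⁻¹ ≤ (2*x+1)⁻¹ := by gcongr
    _ ≤ 1 - x := by
        rw [inv_le_iff_one_le_mul₀ h2]
        nlinarith

/-- the box of a pair -/
noncomputable def box (T e : ℝ) (R : ℕ) {M : ℕ} (p : Fin M × Fin M) (k : Fin M) : Finset ℕ :=
  if k = p.1 then (Finset.Icc 1 R).filter
    (fun m : ℕ => 1 * T ≤ (m : ℝ) ∧ (m : ℝ) ≤ 11 / 10 * T)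
  else if k = p.2 then (Finset.Icc 1 R).filter
    (fun m : ℕ => 2 * T ≤ (m : ℝ) ∧ (m : ℝ) ≤ 21 / 10 * T)
  else (Finset.Icc 1 R).filter (fun m : ℕ => (m : ℝ) ≤ e * T)

lemma box_sub (T e : ℝ) (R : ℕ) {M : ℕ} (p : Fin M × Fin M) (k : Fin M) :
    box T e R p k ⊆ Finset.Icc 1 R := by
  unfold box
  split_ifs <;> exact Finset.filter_subset _ _

/-- lower bound for one pair -/
lemma pair_bound (B : Base) {T e s a b P ms : ℝ} (R M : ℕ) (p : Fin M × Fin M)
    (hp : p.1 ≠ p.2) (hT : 0 < T) (hs : 0 < s)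
    (ha : a ≤ ∑ m ∈ (Finset.Icc 1 R).filter
      (fun m : ℕ => 1 * T ≤ (m : ℝ) ∧ (m : ℝ) ≤ 11 / 10 * T), B.K m)
    (hb : b ≤ ∑ m ∈ (Finset.Icc 1 R).filter
      (fun m : ℕ => 2 * T ≤ (m : ℝ) ∧ (m : ℝ) ≤ 21 / 10 * T), B.K m)
    (ha0 : 0 ≤ a) (hb0 : 0 ≤ b)
    (hP : P = ∑ m ∈ (Finset.Icc 1 R).filter (fun m : ℕ => (m : ℝ) ≤ e * T), B.K m)
    (hP1 : 1/2 ≤ P)
    (hms : ms = ∑ m ∈ (Finset.Icc 1 R).filter (fun m : ℕ => (m : ℝ) ≤ e * T), B.K m * (m:ℝ))
    (hM : (M:ℝ) * ms ≤ s * T / 4) :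
    a * b * P ^ M / 2 ≤ ∑ n ∈ (Fintype.piFinset (box T e R p)).filter
      (fun n => ∑ k ∈ Finset.univ \ {p.1, p.2}, (n k : ℝ) ≤ s * T), ∏ i, B.K (n i) := by
  classical
  have hsT : 0 < s * T := by positivity
  have hP0 : 0 < P := by linarith
  have hPle : P ≤ 1 := by rw [hP]; exact K_sum_le B _
  have hms0 : 0 ≤ ms := by
    rw [hms]
    apply Finset.sum_nonneg
    intro m _
    have := K_nonneg B m
    positivity
  set Z : ℝ := ∏ i, ∑ m ∈ box T e R p i, B.K m with hZ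
  have hprod0 : ∀ n : Fin M → ℕ, 0 ≤ ∏ i, B.K (n i) :=
    fun n => Finset.prod_nonneg (fun i _ => K_nonneg B _)
  -- Z lower bound
  have hZeq : Z = (∑ m ∈ (Finset.Icc 1 R).filter
      (fun m : ℕ => 1 * T ≤ (m : ℝ) ∧ (m : ℝ) ≤ 11 / 10 * T), B.K m) *
      ((∑ m ∈ (Finset.Icc 1 R).filter
      (fun m : ℕ => 2 * T ≤ (m : ℝ) ∧ (m : ℝ) ≤ 21 / 10 * T), B.K m) * 
      ∏ i ∈ (Finset.univ.erase p.1).erase p.2, P) := by
    rw [hZ, ← Finset.mul_prod_erase Finset.univ _ (Finset.mem_univ p.1),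
      ← Finset.mul_prod_erase (Finset.univ.erase p.1) _
        (Finset.mem_erase.mpr ⟨hp.symm, Finset.mem_univ p.2⟩)]
    have h1 : box T e R p p.1 = (Finset.Icc 1 R).filter
      (fun m : ℕ => 1 * T ≤ (m : ℝ) ∧ (m : ℝ) ≤ 11 / 10 * T) := by simp [box]
    have h2 : box T e R p p.2 = (Finset.Icc 1 R).filter
      (fun m : ℕ => 2 * T ≤ (m : ℝ) ∧ (m : ℝ) ≤ 21 / 10 * T) := by
      simp [box, hp.symm]
    rw [h1, h2]
    congr 2
    apply Finset.prod_congr rfl
    intro i hi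
    have hi2 : i ≠ p.2 := (Finset.mem_erase.mp hi).1
    have hi1 : i ≠ p.1 := (Finset.mem_erase.mp (Finset.mem_erase.mp hi).2).1
    rw [hP]
    simp [box, hi1, hi2]
  have hcard : ((Finset.univ.erase p.1).erase p.2).card ≤ M := by
    refine (Finset.card_le_univ _).trans ?_
    simp
  have hZlow : a * b * P ^ M ≤ Z := by
    rw [hZeq, Finset.prod_const, ← mul_assoc]
    have h3 : P ^ M ≤ P ^ ((Finset.univ.erase p.1).erase p.2).card :=
      pow_le_pow_of_le_one hP0.le hPle hcard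
    have h8 : 0 ≤ P ^ M := by positivity
    have h9 := ha0.trans ha
    exact mul_le_mul (mul_le_mul ha hb hb0 h9) h3 h8 (mul_nonneg h9 (hb0.trans hb))
  have hZ0 : 0 ≤ Z := by
    rw [hZ]
    exact Finset.prod_nonneg (fun i _ => Finset.sum_nonneg (fun m _ => K_nonneg B m))
  -- pointwise
  have hlow : ∑ n ∈ Fintype.piFinset (box T e R p), (∏ i, B.K (n i)) *
      (1 - (∑ k ∈ Finset.univ \ {p.1, p.2}, (n k : ℝ)) / (s * T)) ≤
      ∑ n ∈ (Fintype.piFinset (box T e R p)).filter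
      (fun n => ∑ k ∈ Finset.univ \ {p.1, p.2}, (n k : ℝ) ≤ s * T), ∏ i, B.K (n i) := by
    rw [Finset.sum_filter]
    apply Finset.sum_le_sum
    intro n _
    have h0 : 0 ≤ ∑ k ∈ Finset.univ \ {p.1, p.2}, (n k : ℝ) :=
      Finset.sum_nonneg (fun _ _ => Nat.cast_nonneg _)
    split_ifs with h
    · have : 1 - (∑ k ∈ Finset.univ \ {p.1, p.2}, (n k : ℝ)) / (s * T) ≤ 1 := by
        have := div_nonneg h0 hsT.le
        linarith
      calc _ ≤ (∏ i, B.K (n i)) * 1 := mul_le_mul_of_nonneg_left this (hprod0 n)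
        _ = _ := mul_one _
    · push Not at h
      have : 1 - (∑ k ∈ Finset.univ \ {p.1, p.2}, (n k : ℝ)) / (s * T) ≤ 0 := by
        have : 1 ≤ (∑ k ∈ Finset.univ \ {p.1, p.2}, (n k : ℝ)) / (s * T) := by
          rw [le_div_iff₀ hsT]; linarith
        linarith
      exact mul_nonpos_of_nonneg_of_nonpos (hprod0 n) this
  refine le_trans ?_ hlow
  have hexp : ∑ n ∈ Fintype.piFinset (box T e R p), (∏ i, B.K (n i)) *
      (1 - (∑ k ∈ Finset.univ \ {p.1, p.2}, (n k : ℝ)) / (s * T))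
      = Z - (∑ k ∈ Finset.univ \ {p.1, p.2}, Z * (ms / P)) / (s * T) := by
    have h1 : ∀ n : Fin M → ℕ, (∏ i, B.K (n i)) *
      (1 - (∑ k ∈ Finset.univ \ {p.1, p.2}, (n k : ℝ)) / (s * T))
      = (∏ i, B.K (n i)) - (∑ k ∈ Finset.univ \ {p.1, p.2}, (∏ i, B.K (n i)) * (n k : ℝ)) / (s * T) := by
      intro n
      rw [← Finset.mul_sum]; ring
    simp_rw [h1]
    rw [Finset.sum_sub_distrib, sum_pi, ← Finset.sum_div, Finset.sum_comm]
    congr 2
    apply Finset.sum_congr rfl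
    intro k hk
    have hk' : k ≠ p.1 ∧ k ≠ p.2 := by
      simpa [Finset.mem_sdiff, Finset.mem_insert, not_or] using hk
    have hbox : box T e R p k = (Finset.Icc 1 R).filter (fun m : ℕ => (m : ℝ) ≤ e * T) := by
      simp [box, hk'.1, hk'.2]
    have h4 := sum_pi_mul B.K (box T e R p) k (by rw [hbox, ← hP]; exact hP0.ne')
    rw [h4, hbox, ← hP, ← hms]
  rw [hexp, Finset.sum_const, nsmul_eq_mul]
  have hc2 : (((Finset.univ \ {p.1, p.2} : Finset (Fin M)).card : ℕ) : ℝ) ≤ M := by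
    have : (Finset.univ \ {p.1, p.2} : Finset (Fin M)).card ≤ M := by
      refine (Finset.card_le_univ _).trans ?_
      simp
    exact_mod_cast this
  have h5 : (((Finset.univ \ {p.1, p.2} : Finset (Fin M)).card : ℕ) : ℝ) * (Z * (ms / P)) / (s * T)
      ≤ Z / 2 := by
    rw [div_le_iff₀ hsT]
    calc (((Finset.univ \ {p.1, p.2} : Finset (Fin M)).card : ℕ) : ℝ) * (Z * (ms / P))
        ≤ M * (Z * (ms / P)) := by
          apply mul_le_mul_of_nonneg_right hc2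
          positivity
      _ = Z * ((M * ms) / P) := by ring
      _ ≤ Z * ((s * T / 4) / (1/2)) := by gcongr
      _ = Z / 2 * (s * T) := by ring
  linarith

theorem good : GoodT := by
  classical
  intro hKmin hKlow B s hs
  obtain ⟨C, hC0, hC⟩ := hKmin B
  obtain ⟨c1, T1, hc1, h1⟩ := hKlow B 1 (11/10) (by norm_num) (by norm_num)
  obtain ⟨c2, T2, hc2, h2⟩ := hKlow B 2 (21/10) (by norm_num) (by norm_num)
  have hα := B.hα
  have hα1 := B.hα1
  -- choice of e : e ≤ 1/2 and 2 C e^(1-α) / s ≤ 1/4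
  obtain ⟨e, he0, he1, he⟩ : ∃ e : ℝ, 0 < e ∧ e ≤ 1/2 ∧ 2 * C * e ^ (1 - B.α) ≤ s / 4 := by
    have hlim : Tendsto (fun e : ℝ => 2 * C * e ^ (1 - B.α)) (𝓝[>] 0) (𝓝 (2 * C * (0:ℝ) ^ (1 - B.α))) := by
      apply Tendsto.const_mul
      have : ContinuousAt (fun e : ℝ => e ^ (1 - B.α)) 0 :=
        Real.continuousAt_rpow_const 0 (1 - B.α) (Or.inr (by linarith))
      exact this.tendsto.mono_left nhdsWithin_le_nhds
    rw [Real.zero_rpow (by linarith), mul_zero] at hlim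
    have h3 : ∀ᶠ e : ℝ in 𝓝[>] 0, 2 * C * e ^ (1 - B.α) < s / 4 :=
      hlim.eventually (gt_mem_nhds (by positivity))
    have h4 : ∀ᶠ e : ℝ in 𝓝[>] 0, e ∈ Set.Ioc (0:ℝ) (1/2) := Ioc_mem_nhdsGT (by norm_num)
    obtain ⟨e, h5, h6⟩ := (h3.and h4).exists
    exact ⟨e, h6.1, h6.2, h5.le⟩
  set D : ℝ := C * e ^ (-B.α) with hD
  have hD0 : 0 < D := by positivity
  -- T0
  obtain ⟨T3, hT3⟩ : ∃ T3 : ℝ, ∀ T : ℝ, T3 ≤ T → D * T ^ (-B.α) ≤ 1/2 := by
    have hlim : Tendsto (fun T : ℝ => D * T ^ (-B.α)) atTop (𝓝 (D * 0)) :=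
      (tendsto_rpow_neg_atTop hα).const_mul D
    rw [mul_zero] at hlim
    obtain ⟨T3, hT3⟩ := eventually_atTop.mp (hlim.eventually (gt_mem_nhds (by norm_num : (0:ℝ) < 1/2)))
    exact ⟨T3, fun T hT => (hT3 T hT).le⟩
  refine ⟨c1 * c2 * Real.exp (-(4*D)) / 4, max (max T1 T2) (max T3 (max 2 (1/e))), by positivity, ?_⟩
  intro T hT R hR M hM g hg hgs
  have hT1 : T1 ≤ T := (le_max_left _ _).trans ((le_max_left _ _).trans hT)
  have hT2 : T2 ≤ T := (le_max_right _ _).trans ((le_max_left _ _).trans hT)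
  have hT3' : T3 ≤ T := (le_max_left _ _).trans ((le_max_right _ _).trans hT)
  have hT4 : 2 ≤ T := (le_max_left _ _).trans ((le_max_right _ _).trans ((le_max_right _ _).trans hT))
  have hT5 : 1/e ≤ T := (le_max_right _ _).trans ((le_max_right _ _).trans ((le_max_right _ _).trans hT))
  have hT0 : 0 < T := by linarith
  have heT : 1 ≤ e * T := by
    rw [div_le_iff₀ he0] at hT5
    linarith
  have hTα : 1 < T ^ B.α := Real.one_lt_rpow (by linarith) hα
  have hM1 : T ^ B.α ≤ M := by rw [hM]; exact Nat.le_ceil _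
  have hM2 : (M:ℝ) ≤ 2 * T ^ B.α := by
    have : (M:ℝ) < T ^ B.α + 1 := by rw [hM]; exact Nat.ceil_lt_add_one (by positivity)
    linarith
  have hMge : 2 ≤ M := by
    have : (1:ℝ) < M := by linarith
    have : 1 < M := by exact_mod_cast this
    omega
  have hTn : T ^ (-B.α) * T ^ B.α = 1 := by
    rw [← Real.rpow_add hT0]; simp
  set a : ℝ := c1 * T ^ (-B.α) with ha
  set b : ℝ := c2 * T ^ (-B.α) with hb
  set P : ℝ := ∑ m ∈ (Finset.Icc 1 R).filter (fun m : ℕ => (m : ℝ) ≤ e * T), B.K m with hP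
  set ms : ℝ := ∑ m ∈ (Finset.Icc 1 R).filter (fun m : ℕ => (m : ℝ) ≤ e * T), B.K m * (m:ℝ) with hms
  have hDx : C * (e * T) ^ (-B.α) = D * T ^ (-B.α) := by
    rw [hD, Real.mul_rpow he0.le hT0.le]; ring
  have hPlow : 1 - D * T ^ (-B.α) ≤ P := by
    rw [← hDx]
    apply short_mass B hC heT R
    nlinarith
  have hP1 : 1/2 ≤ P := by
    have := hT3 T hT3'
    linarith
  have hmsle : ms ≤ e * T * (D * T ^ (-B.α)) := by
    rw [← hDx]
    exact short_mean B hC heT R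
  have hMms : (M:ℝ) * ms ≤ s * T / 4 := by
    calc (M:ℝ) * ms ≤ (M:ℝ) * (e * T * (D * T ^ (-B.α))) :=
          mul_le_mul_of_nonneg_left hmsle (Nat.cast_nonneg _)
      _ ≤ (2 * T ^ B.α) * (e * T * (D * T ^ (-B.α))) :=
          mul_le_mul_of_nonneg_right hM2 (by positivity)
      _ = 2 * (e * D) * T * (T ^ (-B.α) * T ^ B.α) := by ring
      _ = (2 * C * e ^ (1 - B.α)) * T := by
          rw [hTn, hD]
          have : e ^ (1 - B.α) = e * e ^ (-B.α) := by
            rw [sub_eq_add_neg, Real.rpow_add he0, Real.rpow_one]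
          rw [this]; ring
      _ ≤ (s / 4) * T := by gcongr
      _ = s * T / 4 := by ring
  have hPM : Real.exp (-(4*D)) ≤ P ^ M := by
    have hx0 : 0 ≤ D * T ^ (-B.α) := by positivity
    have h3 := exp_le_one_sub hx0 (hT3 T hT3')
    calc Real.exp (-(4*D)) ≤ Real.exp ((M:ℝ) * (-(2 * (D * T ^ (-B.α))))) := by
          apply Real.exp_le_exp.mpr
          have : (M:ℝ) * (D * T ^ (-B.α)) ≤ 2 * D := by
            calc (M:ℝ) * (D * T ^ (-B.α)) ≤ (2 * T ^ B.α) * (D * T ^ (-B.α)) :=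
                  mul_le_mul_of_nonneg_right hM2 hx0
              _ = 2 * D * (T ^ (-B.α) * T ^ B.α) := by ring
              _ = 2 * D := by rw [hTn, mul_one]
          linarith
      _ = (Real.exp (-(2 * (D * T ^ (-B.α))))) ^ M := by rw [Real.exp_nat_mul]
      _ ≤ P ^ M := by
          gcongr
          linarith
  have h3T : (11/10 : ℝ) * T ≤ R := by linarith
  have h3T2 : (21/10 : ℝ) * T ≤ R := by linarith
  have hpair : ∀ p ∈ (Finset.univ : Finset (Fin M)).offDiag,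
      a * b * P ^ M / 2 ≤ ∑ n ∈ (Fintype.piFinset (box T e R p)).filter
      (fun n => ∑ k ∈ Finset.univ \ {p.1, p.2}, (n k : ℝ) ≤ s * T), ∏ i, B.K (n i) := by
    intro p hp
    have hp' : p.1 ≠ p.2 := (Finset.mem_offDiag.mp hp).2.2
    exact pair_bound B R M p hp' hT0 hs (h1 T hT1 R h3T) (h2 T hT2 R h3T2)
      (by positivity) (by positivity) hP hP1 hms hMms
  -- disjointness
  have hA : ∀ (p : Fin M × Fin M) (n : Fin M → ℕ), n ∈ Fintype.piFinset (box T e R p) → p.1 ≠ p.2 →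
      (1 * T ≤ (n p.1 : ℝ) ∧ (n p.1 : ℝ) ≤ 11/10 * T) ∧ (2 * T ≤ (n p.2 : ℝ) ∧ (n p.2 : ℝ) ≤ 21/10 * T)
      ∧ ∀ k, k ≠ p.1 → k ≠ p.2 → (n k : ℝ) ≤ e * T := by
    intro p n hn hp
    rw [Fintype.mem_piFinset] at hn
    refine ⟨?_, ?_, ?_⟩
    · have := hn p.1
      simp only [box, if_true, Finset.mem_filter] at this
      exact this.2
    · have := hn p.2
      rw [box, if_neg hp.symm, if_pos rfl, Finset.mem_filter] at this
      exact this.2
    · intro k hk1 hk2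
      have := hn k
      rw [box, if_neg hk1, if_neg hk2, Finset.mem_filter] at this
      exact this.2
  have hdisj : ((Finset.univ : Finset (Fin M)).offDiag : Set (Fin M × Fin M)).PairwiseDisjoint
      (fun p => (Fintype.piFinset (box T e R p)).filter
      (fun n => ∑ k ∈ Finset.univ \ {p.1, p.2}, (n k : ℝ) ≤ s * T)) := by
    intro p hp q hq hpq
    simp only [Function.onFun]
    rw [Finset.disjoint_left]
    intro n hn1 hn2
    apply hpq
    have hp' : p.1 ≠ p.2 := (Finset.mem_offDiag.mp hp).2.2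
    have hq' : q.1 ≠ q.2 := (Finset.mem_offDiag.mp hq).2.2
    obtain ⟨a1, a2, a3⟩ := hA p n (Finset.mem_filter.mp hn1).1 hp'
    obtain ⟨b1, b2, b3⟩ := hA q n (Finset.mem_filter.mp hn2).1 hq'
    have hehalf : e * T ≤ T / 2 := by nlinarith
    have e1 : p.1 = q.1 := by
      by_contra hne
      by_cases h : p.1 = q.2
      · rw [h] at a1
        linarith [a1.2, b2.1]
      · have := b3 p.1 hne h
        linarith [a1.1]
    have e2 : p.2 = q.2 := by
      by_contra hne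
      by_cases h : p.2 = q.1
      · rw [h] at a2
        linarith [a2.1, b1.2]
      · have := b3 p.2 h hne
        linarith [a2.1]
    exact Prod.ext e1 e2
  have hsub : (Finset.univ : Finset (Fin M)).offDiag.biUnion
      (fun p => (Fintype.piFinset (box T e R p)).filter
      (fun n => ∑ k ∈ Finset.univ \ {p.1, p.2}, (n k : ℝ) ≤ s * T)) ⊆ g := by
    intro n hn
    rw [Finset.mem_biUnion] at hn
    obtain ⟨p, hp, hn⟩ := hn
    have hp' : p.1 ≠ p.2 := (Finset.mem_offDiag.mp hp).2.2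
    rw [Finset.mem_filter] at hn
    obtain ⟨a1, a2, a3⟩ := hA p n hn.1 hp'
    apply hg n
    · rw [wds, Fintype.mem_piFinset]
      intro i
      exact box_sub T e R p i ((Fintype.mem_piFinset.mp hn.1) i)
    · exact ⟨p.1, p.2, hp', by linarith [a1.1], a1.2, a2.1, a2.2, hn.2⟩
  calc c1 * c2 * Real.exp (-(4*D)) / 4
      ≤ ((M:ℝ) * (M - 1)) * (a * b * P ^ M / 2) := by
        have hMM : (T ^ B.α) ^ 2 / 2 ≤ (M:ℝ) * (M - 1) := by
          have h6 : (2:ℝ) ≤ M := by exact_mod_cast hMge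
          nlinarith [hM1, hTα]
        calc c1 * c2 * Real.exp (-(4*D)) / 4
            = ((T ^ B.α) ^ 2 / 2) * ((c1 * T ^ (-B.α)) * (c2 * T ^ (-B.α)) * Real.exp (-(4*D)) / 2) := by
              have : ((T ^ B.α) ^ 2 / 2) * ((c1 * T ^ (-B.α)) * (c2 * T ^ (-B.α)) * Real.exp (-(4*D)) / 2)
                = c1 * c2 * Real.exp (-(4*D)) / 4 * (T ^ (-B.α) * T ^ B.α) ^ 2 := by ring
              rw [this, hTn]; ring
          _ ≤ ((M:ℝ) * (M - 1)) * (a * b * P ^ M / 2) := by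
              have h10 : (0:ℝ) ≤ (M:ℝ) * (M - 1) := le_trans (by positivity) hMM
              have h11 : a * b * Real.exp (-(4*D)) / 2 ≤ a * b * P ^ M / 2 := by
                have : 0 ≤ a * b := by positivity
                have := mul_le_mul_of_nonneg_left hPM this
                linarith
              exact mul_le_mul hMM h11 (by positivity) h10
    _ = ∑ p ∈ (Finset.univ : Finset (Fin M)).offDiag, (a * b * P ^ M / 2) := by
        rw [Finset.sum_const, nsmul_eq_mul, Finset.offDiag_card]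
        have h7 : (Finset.univ : Finset (Fin M)).card = M := by simp
        rw [h7]
        rw [Nat.cast_sub (Nat.le_mul_self M)]
        push_cast
        ring
    _ ≤ ∑ p ∈ (Finset.univ : Finset (Fin M)).offDiag,
          ∑ n ∈ (Fintype.piFinset (box T e R p)).filter
      (fun n => ∑ k ∈ Finset.univ \ {p.1, p.2}, (n k : ℝ) ≤ s * T), ∏ i, B.K (n i) :=
        Finset.sum_le_sum hpair
    _ = ∑ n ∈ (Finset.univ : Finset (Fin M)).offDiag.biUnion
      (fun p => (Fintype.piFinset (box T e R p)).filter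
      (fun n => ∑ k ∈ Finset.univ \ {p.1, p.2}, (n k : ℝ) ≤ s * T)), ∏ i, B.K (n i) :=
        (Finset.sum_biUnion hdisj).symm
    _ ≤ ∑ n ∈ g, ∏ i, B.K (n i) :=
        Finset.sum_le_sum_of_subset_of_nonneg hsub
          (fun n _ _ => Finset.prod_nonneg (fun i _ => K_nonneg B _))

end Pool.Agent.J6H22.Cop
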